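import Mathlib
import Pool.Agent.Helper872.RN.UnitInt
import Pool.Agent.Helper872.RN.Force
import Pool.Agent.Helper292.ForceCH
import Pool.Agent.Results.MP_8b9ec4_lc.TwoPieces

/-!
# Splitting a Polish group in two naively Haar null sets: what is consistent

(1), (2): the measure algebra which adds more than the continuum many random reals forces
`non(N) ≤ |K| < cov(N)` for a set `K`, and this implies that no Polish group at all splits in two
naively Haar null sets. (3), (4): the continuum hypothesis can be forced, and it implies that every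
Polish group with uncountable center, in particular every uncountable abelian Polish group, splits
in two naively Haar null sets.

`PhiHolds P K`, `CHHolds P`, `OmegaOnePreserved P` are sentences of the forcing language; a sentence
is the set of the conditions which force it. `PhiHolds P K` translates the proposition `PhiFor K`.
-/

set_option autoImplicit false

namespace Pool.Agent.Results.MP_8b9ec4_lc.ForcedIndependence

open Cardinal MeasureTheory Set Pool.Agent.V11242.RN Pool.Agent.R608.NaiveHaar

theorem nonN_le {K : Type} (h : PhiFor K) : nonN ≤ #K := by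
  obtain ⟨Y, h1, h2⟩ := Pool.Agent.Helper872.RN.exists_not_null' h
  have h3 : nonN ≤ #Y := csInf_le' ⟨Y, rfl, h2⟩
  exact h3.trans h1

theorem lt_covN {K : Type} (h : PhiFor K) : #K < covN := by
  have hne : {κ : Cardinal.{0} | ∃ F : Set (Set unitInterval), #F = κ ∧
      (∀ N ∈ F, volume N = 0) ∧ ⋃₀ F = Set.univ}.Nonempty := by
    refine ⟨_, Set.range fun x : unitInterval => ({x} : Set unitInterval), rfl, ?_, ?_⟩
    · rintro _ ⟨x, rfl⟩
      exact measure_singleton x
    · refine Set.eq_univ_of_forall fun x => ⟨{x}, ⟨x, rfl⟩, rfl⟩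
  obtain ⟨F, h1, h2, h3⟩ := csInf_mem hne
  rw [covN, ← h1]
  by_contra hlt
  obtain ⟨x, hx⟩ := Pool.Agent.Helper872.RN.exists_not_covered' h h2 (not_lt.1 hlt)
  have h4 : x ∈ ⋃₀ F := by rw [h3]; exact Set.mem_univ x
  obtain ⟨C, hC, hxC⟩ := h4
  exact hx C hC hxC

theorem nonN_eq_of_CH (hCH : (𝔠 : Cardinal.{0}) = ℵ₁) : nonN = 𝔠 := by
  obtain ⟨S, h1, h2⟩ := TwoPieces.exists_nonN
  have h3 : nonN ≤ 𝔠 := by
    rw [← h1]
    refine (mk_set_le S).trans ?_
    rw [show Cardinal.mk unitInterval = 𝔠 from Cardinal.mk_Icc_real (by norm_num)]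
  refine le_antisymm h3 ?_
  rw [hCH, aleph_one_le_iff, ← h1]
  by_contra hlt
  exact h2 ((Cardinal.le_aleph0_iff_set_countable.1 (not_lt.1 hlt)).measure_zero _)

/-- (1) There are a set `K` and a nonempty ccc notion of forcing `P` all of whose conditions force
the sentence `PhiFor K`. (2) Whenever `PhiFor K` holds, `non(N) ≤ |K| < cov(N)` and no Polish group
splits in two naively Haar null sets. (3) There is a notion of forcing all of whose conditions force
that `ω₁` is preserved and that the continuum hypothesis holds. (4) Under the continuum hypothesis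
every Polish group with uncountable center splits in two naively Haar null sets. -/
theorem result :
    (∃ (K P : Type) (_ : Preorder P), Nonempty P ∧
      (∀ A : Set P, (∀ p ∈ A, ∀ q ∈ A, p ≠ q → ¬ ∃ r, r ≤ p ∧ r ≤ q) → A.Countable) ∧
      ∀ p : P, p ∈ PhiHolds P K) ∧
    (∀ K : Type, PhiFor K → nonN ≤ #K ∧ #K < covN ∧
      ∀ (G : Type) [Group G] [TopologicalSpace G] [IsTopologicalGroup G]
        [PolishSpace G] [MeasurableSpace G] [BorelSpace G],
        ¬ ∃ S : Set G, NaivelyHaarNull S ∧ NaivelyHaarNull Sᶜ) ∧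
    (∃ (P : Type) (_ : Preorder P), Nonempty P ∧ ∀ p : P,
      p ∈ Pool.Agent.Helper292.ForceCH.OmegaOnePreserved P ∧
      p ∈ Pool.Agent.Helper292.ForceCH.CHHolds P) ∧
    ((𝔠 : Cardinal.{0}) = ℵ₁ → ∀ (G : Type) [Group G] [TopologicalSpace G] [IsTopologicalGroup G]
      [PolishSpace G] [MeasurableSpace G] [BorelSpace G],
        ¬ (Subgroup.center G : Set G).Countable →
          ∃ S : Set G, NaivelyHaarNull S ∧ NaivelyHaarNull Sᶜ) := by
  refine ⟨Pool.Agent.Helper872.RN.exists_forcing, fun K h => ⟨nonN_le h, lt_covN h, ?_⟩, ?_, ?_⟩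
  · intro G _ _ _ _ _ _
    exact TwoPieces.no_partition ((nonN_le h).trans_lt (lt_covN h)) G
  · obtain ⟨P, i, h1, h2⟩ := Pool.Agent.Helper292.ForceCH.exists_forcing
    exact ⟨P, i, h1, fun p => ⟨(h2 p).1, (h2 p).2.2⟩⟩
  · intro hCH G _ _ _ _ _ _ hG
    exact TwoPieces.exists_partition (nonN_eq_of_CH hCH) G hG

end Pool.Agent.Results.MP_8b9ec4_lc.ForcedIndependence
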